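import Pool.Agent.Q220.Fans.Main

/-!
# Functions expressible by binary submodular functions which are not in the cone of fans

For every `k ≥ 5` the function `min(0, 3 - (x_1 + x_2 + x_3 + x_4 + 2 x_5))` on `{0,1}^k` is
submodular and expressible by binary submodular functions (with one hidden variable), but it is
not a nonnegative combination of fans plus a constant. So the equality of the two cones, known for
`k ≤ 4`, fails for every `k ≥ 5`.
-/

namespace Pool.Agent.Results.MP_09575c_lc.NotFans

open Q220.Fans

/-- **Main theorem.** -/
theorem result (k : ℕ) (hk : 5 ≤ k) :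
    (∃ f : (Fin k → Bool) → ℝ, IsSubmodular f ∧ Expressible f ∧ ¬ InCone f) ∧
    {f : (Fin k → Bool) → ℝ | IsSubmodular f ∧ Expressible f} ≠ {f | InCone f} := by
  refine ⟨⟨target hk, target_submod hk, target_expressible hk, target_not_cone hk⟩, ?_⟩
  intro h
  have h1 : target hk ∈ {f : (Fin k → Bool) → ℝ | IsSubmodular f ∧ Expressible f} :=
    ⟨target_submod hk, target_expressible hk⟩
  rw [h] at h1
  exact target_not_cone hk h1

end Pool.Agent.Results.MP_09575c_lc.NotFans
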